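import Pool.Agent.helper55.GL.Spec

/-!
# Project gl, module UP2 (helper66)
-/

set_option autoImplicit false

namespace Pool.Agent.GL

open SimpleGraph

/-- the columns of a row -/
def UP2_N {n : ℕ} (B : Finset (Fin n × Fin n)) (x : Fin n) : Finset (Fin n) :=
  Finset.univ.filter (fun y => (x, y) ∈ B)

/-- the common rows of two columns -/
def UP2_M {n : ℕ} (B : Finset (Fin n × Fin n)) (p : Fin n × Fin n) : Finset (Fin n) :=
  Finset.univ.filter (fun x => (x, p.1) ∈ B ∧ (x, p.2) ∈ B)

theorem UP2_mem_N {n : ℕ} (B : Finset (Fin n × Fin n)) (x y : Fin n) :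
    y ∈ UP2_N B x ↔ (x, y) ∈ B := by simp [UP2_N]

theorem UP2_mem_M {n : ℕ} (B : Finset (Fin n × Fin n)) (p : Fin n × Fin n) (x : Fin n) :
    x ∈ UP2_M B p ↔ (x, p.1) ∈ B ∧ (x, p.2) ∈ B := by simp [UP2_M]

/-- three rows with two common columns, any two of which have `m` common columns -/
def UP2_Good {n : ℕ} (B : Finset (Fin n × Fin n)) (m : ℕ) : Prop :=
  ∃ (x : Fin 3 → Fin n) (z : Fin 2 → Fin n), Function.Injective x ∧ Function.Injective z ∧
    (∀ i j, (x i, z j) ∈ B) ∧ ∀ i j, i ≠ j → m ≤ (UP2_N B (x i) ∩ UP2_N B (x j)).card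

/-- a set of at most two elements of `Fin 3` is in a pair -/
theorem UP2_pair (S : Finset (Fin 3)) (h : S.card ≤ 2) : ∃ i j : Fin 3, i ≠ j ∧
    ∀ k ∈ S, k = i ∨ k = j := by
  revert S
  decide

theorem UP2_emb {V : Type} [Fintype V] (H : SimpleGraph V) (c : V → Bool) (hc : Pr H c)
    (h3 : Nat.card {a : V // c a = true} ≤ 3)
    (h2 : Nat.card {b : V // c b = false ∧ 3 ≤ Nat.card {a // H.Adj a b}} ≤ 2)
    {n : ℕ} (B : Finset (Fin n × Fin n)) (m : ℕ) (hm : Fintype.card V + 2 ≤ m)
    (hg : UP2_Good B m) : Cp H c Set.univ B := by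
  classical
  obtain ⟨x, z, hx, hz, hxz, hcd⟩ := hg
  -- the rows
  obtain ⟨i, hi⟩ : ∃ i : {a : V // c a = true} → Fin 3, Function.Injective i := by
    have : Fintype.card {a : V // c a = true} ≤ Fintype.card (Fin 3) := by
      rw [Fintype.card_fin, ← Nat.card_eq_fintype_card]; exact h3
    obtain ⟨f⟩ := Function.Embedding.nonempty_of_card_le this
    exact ⟨f, f.injective⟩
  -- the high columns
  obtain ⟨j, hj⟩ : ∃ j : {b : V // c b = false ∧ 3 ≤ Nat.card {a // H.Adj a b}} → Fin 2,
      Function.Injective j := by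
    have : Fintype.card {b : V // c b = false ∧ 3 ≤ Nat.card {a // H.Adj a b}} ≤
        Fintype.card (Fin 2) := by
      rw [Fintype.card_fin, ← Nat.card_eq_fintype_card]; exact h2
    obtain ⟨f⟩ := Function.Embedding.nonempty_of_card_le this
    exact ⟨f, f.injective⟩
  -- the pair of a low column
  have hpair : ∀ b : {b : V // c b = false ∧ ¬ 3 ≤ Nat.card {a // H.Adj a b}},
      ∃ q : Fin 3 × Fin 3, q.1 ≠ q.2 ∧
        ∀ a : {a : V // c a = true}, H.Adj a.1 b.1 → i a = q.1 ∨ i a = q.2 := by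
    intro b
    let S : Finset (Fin 3) := (Finset.univ.filter
      (fun a : {a : V // c a = true} => H.Adj a.1 b.1)).image i
    have hS : S.card ≤ 2 := by
      refine Finset.card_image_le.trans ?_
      have h1 : (Finset.univ.filter
          (fun a : {a : V // c a = true} => H.Adj a.1 b.1)).card ≤
          (Finset.univ.filter (fun a : V => H.Adj a b.1)).card := by
        refine Finset.card_le_card_of_injOn (fun a => a.1) ?_ ?_
        · intro a ha
          have := (Finset.mem_filter.mp (Finset.mem_coe.mp ha)).2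
          exact Finset.mem_coe.mpr (Finset.mem_filter.mpr ⟨Finset.mem_univ _, this⟩)
        · intro a _ a' _ haa
          exact Subtype.ext haa
      have h2 : (Finset.univ.filter (fun a : V => H.Adj a b.1)).card =
          Nat.card {a // H.Adj a b.1} := by
        rw [Nat.card_eq_fintype_card, Fintype.card_subtype]
      have h3 := b.2.2
      omega
    obtain ⟨p, q, hpq, hk⟩ := UP2_pair S hS
    refine ⟨(p, q), hpq, ?_⟩
    intro a ha
    exact hk (i a) (Finset.mem_image_of_mem i (Finset.mem_filter.mpr ⟨Finset.mem_univ _, ha⟩))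
  choose q hq1 hq2 using hpair
  -- the low columns: Hall
  let t : {b : V // c b = false ∧ ¬ 3 ≤ Nat.card {a // H.Adj a b}} → Finset (Fin n) :=
    fun b => (UP2_N B (x (q b).1) ∩ UP2_N B (x (q b).2)) \ {z 0, z 1}
  have ht : ∀ b, Fintype.card V ≤ (t b).card := by
    intro b
    have h1 := hcd _ _ (hq1 b)
    have h2 := Finset.le_card_sdiff ({z 0, z 1} : Finset (Fin n))
      (UP2_N B (x (q b).1) ∩ UP2_N B (x (q b).2))
    have h3 : ({z 0, z 1} : Finset (Fin n)).card ≤ 2 := Finset.card_le_two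
    show Fintype.card V ≤ ((UP2_N B (x (q b).1) ∩ UP2_N B (x (q b).2)) \ {z 0, z 1}).card
    omega
  obtain ⟨f, hf, hft⟩ := (Finset.all_card_le_biUnion_card_iff_exists_injective t).mp (by
    intro s
    rcases s.eq_empty_or_nonempty with rfl | ⟨b, hb⟩
    · simp
    · calc s.card ≤ Fintype.card {b : V // c b = false ∧ ¬ 3 ≤ Nat.card {a // H.Adj a b}} :=
            Finset.card_le_univ s
        _ ≤ Fintype.card V := Fintype.card_subtype_le _
        _ ≤ (t b).card := ht b
        _ ≤ (s.biUnion t).card := Finset.card_le_card (Finset.subset_biUnion_of_mem t hb))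
  have hftz : ∀ b k, f b ≠ z k := by
    intro b k hbk
    have h1 := (Finset.mem_sdiff.mp (hft b)).2
    apply h1
    rw [hbk]
    fin_cases k
    · simp
    · simp
  have hftB : ∀ b, (x (q b).1, f b) ∈ B ∧ (x (q b).2, f b) ∈ B := by
    intro b
    have h1 := (Finset.mem_sdiff.mp (hft b)).1
    rw [Finset.mem_inter, UP2_mem_N, UP2_mem_N] at h1
    exact h1
  -- the map
  let φ : V → Fin n := fun a =>
    if h : c a = true then x (i ⟨a, h⟩)
    else if h' : 3 ≤ Nat.card {a' // H.Adj a' a} then z (j ⟨a, by simpa using h, h'⟩)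
    else f ⟨a, by simpa using h, h'⟩
  have hφ1 : ∀ (a : V) (h : c a = true), φ a = x (i ⟨a, h⟩) := by
    intro a h
    simp only [φ, dif_pos h]
  have hφ2 : ∀ (a : V) (h : c a = false) (h' : 3 ≤ Nat.card {a' // H.Adj a' a}),
      φ a = z (j ⟨a, h, h'⟩) := by
    intro a h h'
    have h1 : ¬ c a = true := by simp [h]
    simp only [φ, dif_neg h1, dif_pos h']
  have hφ3 : ∀ (a : V) (h : c a = false) (h' : ¬ 3 ≤ Nat.card {a' // H.Adj a' a}),
      φ a = f ⟨a, h, h'⟩ := by
    intro a h h'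
    have h1 : ¬ c a = true := by simp [h]
    simp only [φ, dif_neg h1, dif_neg h']
  refine ⟨φ, ?_, ?_⟩
  · intro a _ b _ hab he
    cases ha : c a with
    | true =>
      have hb : c b = true := by rw [← hab, ha]
      rw [hφ1 a ha, hφ1 b hb] at he
      have := hi (hx he)
      exact congrArg Subtype.val this
    | false =>
      have hb : c b = false := by rw [← hab, ha]
      by_cases h1 : 3 ≤ Nat.card {a' // H.Adj a' a}
      · by_cases h2 : 3 ≤ Nat.card {a' // H.Adj a' b}
        · rw [hφ2 a ha h1, hφ2 b hb h2] at he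
          exact congrArg Subtype.val (hj (hz he))
        · rw [hφ2 a ha h1, hφ3 b hb h2] at he
          exact absurd he.symm (hftz _ _)
      · by_cases h2 : 3 ≤ Nat.card {a' // H.Adj a' b}
        · rw [hφ3 a ha h1, hφ2 b hb h2] at he
          exact absurd he (hftz _ _)
        · rw [hφ3 a ha h1, hφ3 b hb h2] at he
          exact congrArg Subtype.val (hf he)
  · intro a _ b _ hab ha hb
    rw [hφ1 a ha]
    by_cases h2 : 3 ≤ Nat.card {a' // H.Adj a' b}
    · rw [hφ2 b hb h2]
      exact hxz _ _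
    · rw [hφ3 b hb h2]
      have h3 := hftB ⟨b, hb, h2⟩
      rcases hq2 ⟨b, hb, h2⟩ ⟨a, ha⟩ hab with h | h
      · rw [h]; exact h3.1
      · rw [h]; exact h3.2

theorem UP2_triple {α : Type} [DecidableEq α] (S : Finset α) (w : α → α → Prop)
    [DecidableRel w] (h : ∀ x ∈ S, ∀ y ∈ S, ∀ z ∈ S, w x y ∨ w x z ∨ w y z) :
    S.card ^ 2 ≤ 3 * ((S ×ˢ S).filter (fun p => w p.1 p.2)).card := by
  set W := (S ×ˢ S).filter (fun p => w p.1 p.2) with hW
  have hcov : S ×ˢ (S ×ˢ S) ⊆ ((W ×ˢ S).image (fun t : (α × α) × α => (t.1.1, (t.1.2, t.2)))) ∪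
      (((W ×ˢ S).image (fun t : (α × α) × α => (t.1.1, (t.2, t.1.2)))) ∪
        ((W ×ˢ S).image (fun t : (α × α) × α => (t.2, (t.1.1, t.1.2))))) := by
    rintro ⟨x, y, z⟩ hxyz
    rw [Finset.mem_product, Finset.mem_product] at hxyz
    obtain ⟨hx, hy, hz⟩ := hxyz
    simp only at hx hy hz
    rw [Finset.mem_union, Finset.mem_union]
    rcases h x hx y hy z hz with h1 | h1 | h1
    · left
      refine Finset.mem_image.mpr ⟨((x, y), z), ?_, rfl⟩
      refine Finset.mem_product.mpr ⟨?_, hz⟩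
      rw [hW]
      exact Finset.mem_filter.mpr ⟨Finset.mem_product.mpr ⟨hx, hy⟩, h1⟩
    · right; left
      refine Finset.mem_image.mpr ⟨((x, z), y), ?_, rfl⟩
      refine Finset.mem_product.mpr ⟨?_, hy⟩
      rw [hW]
      exact Finset.mem_filter.mpr ⟨Finset.mem_product.mpr ⟨hx, hz⟩, h1⟩
    · right; right
      refine Finset.mem_image.mpr ⟨((y, z), x), ?_, rfl⟩
      refine Finset.mem_product.mpr ⟨?_, hx⟩
      rw [hW]
      exact Finset.mem_filter.mpr ⟨Finset.mem_product.mpr ⟨hy, hz⟩, h1⟩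
  have h1 := Finset.card_le_card hcov
  have h2 := Finset.card_union_le ((W ×ˢ S).image (fun t : (α × α) × α => (t.1.1, (t.1.2, t.2))))
    (((W ×ˢ S).image (fun t : (α × α) × α => (t.1.1, (t.2, t.1.2)))) ∪
        ((W ×ˢ S).image (fun t : (α × α) × α => (t.2, (t.1.1, t.1.2)))))
  have h3 := Finset.card_union_le
    ((W ×ˢ S).image (fun t : (α × α) × α => (t.1.1, (t.2, t.1.2))))
    ((W ×ˢ S).image (fun t : (α × α) × α => (t.2, (t.1.1, t.1.2))))
  have h4 := Finset.card_image_le (s := W ×ˢ S)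
    (f := fun t : (α × α) × α => (t.1.1, (t.1.2, t.2)))
  have h5 := Finset.card_image_le (s := W ×ˢ S)
    (f := fun t : (α × α) × α => (t.1.1, (t.2, t.1.2)))
  have h6 := Finset.card_image_le (s := W ×ˢ S)
    (f := fun t : (α × α) × α => (t.2, (t.1.1, t.1.2)))
  rw [Finset.card_product] at h4 h5 h6
  rw [Finset.card_product, Finset.card_product] at h1
  have h7 : S.card * (S.card * S.card) ≤ 3 * (W.card * S.card) := by omega
  rcases Nat.eq_zero_or_pos S.card with h0 | h0
  · rw [h0]; simp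
  · have h8 : S.card * (S.card ^ 2) ≤ S.card * (3 * W.card) := by nlinarith [h7]
    exact Nat.le_of_mul_le_mul_left h8 h0

theorem UP2_cnt {n : ℕ} (B : Finset (Fin n × Fin n)) (m : ℕ) (hg : ¬ UP2_Good B m) :
    B.card ^ 2 ≤ (2 * m + 4) * n ^ 3 := by
  classical
  let P : Finset (Fin n × Fin n) := (Finset.univ : Finset (Fin n)).offDiag
  let w : Fin n → Fin n → Prop := fun x x' => x = x' ∨ (UP2_N B x ∩ UP2_N B x').card < m
  let T : ℕ := ∑ x : Fin n, (UP2_N B x).offDiag.card
  -- (1)
  have e1 : ∑ p ∈ P, (UP2_M B p).card = T := by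
    have h1 : ∀ p ∈ P, (UP2_M B p).card =
        ∑ x : Fin n, if p ∈ (UP2_N B x).offDiag then 1 else 0 := by
      intro p hp
      rw [UP2_M, Finset.card_filter]
      refine Finset.sum_congr rfl (fun x _ => ?_)
      have hp2 : p.1 ≠ p.2 := (Finset.mem_offDiag.mp hp).2.2
      have : p ∈ (UP2_N B x).offDiag ↔ ((x, p.1) ∈ B ∧ (x, p.2) ∈ B) := by
        rw [Finset.mem_offDiag, UP2_mem_N, UP2_mem_N]
        exact ⟨fun h => ⟨h.1, h.2.1⟩, fun h => ⟨h.1, h.2, hp2⟩⟩
      simp only [this]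
    rw [Finset.sum_congr rfl h1, Finset.sum_comm]
    refine Finset.sum_congr rfl (fun x _ => ?_)
    rw [← Finset.card_filter]
    refine congrArg Finset.card ?_
    ext p
    rw [Finset.mem_filter]
    constructor
    · exact fun h => h.2
    · intro h
      refine ⟨?_, h⟩
      have h2 := Finset.mem_offDiag.mp h
      exact Finset.mem_offDiag.mpr ⟨Finset.mem_univ _, Finset.mem_univ _, h2.2.2⟩
  -- (2)
  have e2 : ∀ p ∈ P, (UP2_M B p).card ^ 2 ≤
      3 * ((UP2_M B p ×ˢ UP2_M B p).filter (fun q => w q.1 q.2)).card := by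
    intro p hp
    refine UP2_triple (UP2_M B p) w ?_
    intro x hx y hy z hz
    by_contra hcon
    simp only [w, not_or, not_lt] at hcon
    obtain ⟨⟨hxy, cxy⟩, ⟨hxz, cxz⟩, ⟨hyz, cyz⟩⟩ := hcon
    rw [UP2_mem_M] at hx hy hz
    have hp2 : p.1 ≠ p.2 := (Finset.mem_offDiag.mp hp).2.2
    apply hg
    refine ⟨![x, y, z], ![p.1, p.2], ?_, ?_, ?_, ?_⟩
    · intro a b hab
      fin_cases a <;> fin_cases b <;> simp_all
    · intro a b hab
      fin_cases a <;> fin_cases b <;> simp_all
    · intro a b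
      fin_cases a <;> fin_cases b <;> simp_all
    · intro a b hab
      fin_cases a <;> fin_cases b
      · exact absurd rfl hab
      · exact cxy
      · exact cxz
      · show m ≤ (UP2_N B y ∩ UP2_N B x).card
        rw [Finset.inter_comm]; exact cxy
      · exact absurd rfl hab
      · exact cyz
      · show m ≤ (UP2_N B z ∩ UP2_N B x).card
        rw [Finset.inter_comm]; exact cxz
      · show m ≤ (UP2_N B z ∩ UP2_N B y).card
        rw [Finset.inter_comm]; exact cyz
      · exact absurd rfl hab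
  -- (3)
  have e3 : ∑ p ∈ P, ((UP2_M B p ×ˢ UP2_M B p).filter (fun q => w q.1 q.2)).card ≤
      n ^ 2 * m ^ 2 + T := by
    have h1 : ∀ p ∈ P, ((UP2_M B p ×ˢ UP2_M B p).filter (fun q => w q.1 q.2)).card =
        ∑ q : Fin n × Fin n,
          if (w q.1 q.2 ∧ p ∈ (UP2_N B q.1 ∩ UP2_N B q.2).offDiag) then 1 else 0 := by
      intro p hp
      have hp2 : p.1 ≠ p.2 := (Finset.mem_offDiag.mp hp).2.2
      rw [← Finset.card_filter]
      refine congrArg Finset.card ?_
      ext q
      rw [Finset.mem_filter, Finset.mem_filter, Finset.mem_product, UP2_mem_M, UP2_mem_M,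
        Finset.mem_offDiag, Finset.mem_inter, Finset.mem_inter, UP2_mem_N, UP2_mem_N, UP2_mem_N,
        UP2_mem_N]
      constructor
      · rintro ⟨⟨⟨a1, a2⟩, a3, a4⟩, a5⟩
        exact ⟨Finset.mem_univ _, a5, ⟨a1, a3⟩, ⟨a2, a4⟩, hp2⟩
      · rintro ⟨_, a5, ⟨a1, a3⟩, ⟨a2, a4⟩, _⟩
        exact ⟨⟨⟨a1, a2⟩, a3, a4⟩, a5⟩
    rw [Finset.sum_congr rfl h1, Finset.sum_comm]
    have h2 : ∀ q : Fin n × Fin n, (∑ p ∈ P,
          if (w q.1 q.2 ∧ p ∈ (UP2_N B q.1 ∩ UP2_N B q.2).offDiag) then 1 else 0) ≤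
        m ^ 2 + if q.1 = q.2 then (UP2_N B q.1).offDiag.card else 0 := by
      intro q
      rw [← Finset.card_filter]
      by_cases hq : q.1 = q.2
      · rw [if_pos hq]
        refine le_trans (Finset.card_le_card ?_) (Nat.le_add_left _ _)
        intro p hp
        have h3 := (Finset.mem_filter.mp hp).2.2
        rw [← hq, Finset.inter_self] at h3
        exact h3
      · rw [if_neg hq, add_zero]
        by_cases hw : (UP2_N B q.1 ∩ UP2_N B q.2).card < m
        · have h4 : (P.filter (fun p => w q.1 q.2 ∧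
              p ∈ (UP2_N B q.1 ∩ UP2_N B q.2).offDiag)).card ≤
              (UP2_N B q.1 ∩ UP2_N B q.2).offDiag.card := by
            refine Finset.card_le_card ?_
            intro p hp
            exact (Finset.mem_filter.mp hp).2.2
          rw [Finset.offDiag_card] at h4
          refine h4.trans ((Nat.sub_le _ _).trans ?_)
          nlinarith
        · have h4 : (P.filter (fun p => w q.1 q.2 ∧
              p ∈ (UP2_N B q.1 ∩ UP2_N B q.2).offDiag)) = ∅ := by
            refine Finset.filter_eq_empty_iff.mpr ?_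
            intro p _ hp
            rcases hp.1 with h5 | h5
            · exact hq h5
            · exact hw h5
          rw [h4]
          simp
    refine (Finset.sum_le_sum (fun q _ => h2 q)).trans ?_
    rw [Finset.sum_add_distrib]
    have h3 : ∑ q : Fin n × Fin n, m ^ 2 = n ^ 2 * m ^ 2 := by
      rw [Finset.sum_const, Finset.card_univ, Fintype.card_prod, Fintype.card_fin, smul_eq_mul]
      ring
    have h4 : (∑ q : Fin n × Fin n, if q.1 = q.2 then (UP2_N B q.1).offDiag.card else 0) = T := by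
      rw [Fintype.sum_prod_type]
      refine Finset.sum_congr rfl (fun x _ => ?_)
      simp
    rw [h3, h4]
  -- (4)
  have e4 : T ^ 2 ≤ n ^ 2 * (3 * (n ^ 2 * m ^ 2 + T)) := by
    have h1 : (∑ p ∈ P, (UP2_M B p).card) ^ 2 ≤ P.card * ∑ p ∈ P, (UP2_M B p).card ^ 2 :=
      sq_sum_le_card_mul_sum_sq
    rw [e1] at h1
    have h2 : P.card ≤ n ^ 2 := by
      have := Finset.card_le_univ P
      rw [Fintype.card_prod, Fintype.card_fin] at this
      rw [pow_two]; exact this
    have h3 : ∑ p ∈ P, (UP2_M B p).card ^ 2 ≤ 3 * (n ^ 2 * m ^ 2 + T) := by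
      refine (Finset.sum_le_sum e2).trans ?_
      rw [← Finset.mul_sum]
      exact Nat.mul_le_mul_left 3 e3
    exact h1.trans (Nat.mul_le_mul h2 h3)
  -- (5)
  have hB : B.card = ∑ x : Fin n, (UP2_N B x).card := by
    have h1 : B.card = ∑ q : Fin n × Fin n, if q ∈ B then 1 else 0 := by
      rw [← Finset.card_filter]
      refine congrArg Finset.card ?_
      ext q; simp
    rw [h1, Fintype.sum_prod_type]
    refine Finset.sum_congr rfl (fun x _ => ?_)
    rw [UP2_N, Finset.card_filter]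
  have hB2 : B.card ≤ n ^ 2 := by
    have := Finset.card_le_univ B
    rw [Fintype.card_prod, Fintype.card_fin] at this
    rw [pow_two]; exact this
  have e5 : B.card ^ 2 ≤ n * (T + B.card) := by
    have h1 : (∑ x : Fin n, (UP2_N B x).card) ^ 2 ≤
        (Finset.univ : Finset (Fin n)).card * ∑ x : Fin n, (UP2_N B x).card ^ 2 :=
      sq_sum_le_card_mul_sum_sq
    rw [Finset.card_univ, Fintype.card_fin] at h1
    have h2 : ∑ x : Fin n, (UP2_N B x).card ^ 2 = T + B.card := by
      rw [hB, ← Finset.sum_add_distrib]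
      refine Finset.sum_congr rfl (fun x _ => ?_)
      rw [Finset.offDiag_card, pow_two]
      exact (Nat.sub_add_cancel (Nat.le_mul_self _)).symm
    rw [h2, ← hB] at h1
    exact h1
  -- conclusion
  have e6 : T ≤ (2 * m + 3) * n ^ 2 := by
    by_contra hcon
    push Not at hcon
    have h1 : (2 * m + 3) * n ^ 2 * T ≤ T ^ 2 := by
      rw [pow_two T]; exact Nat.mul_le_mul_right T hcon.le
    have h2 : T ^ 2 ≤ 3 * n ^ 2 * T + 3 * m ^ 2 * n ^ 2 * n ^ 2 := by
      refine e4.trans (le_of_eq ?_)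
      ring
    have h3 : 2 * m * n ^ 2 * T ≤ 3 * m ^ 2 * n ^ 2 * n ^ 2 := by
      have : (2 * m + 3) * n ^ 2 * T = 2 * m * n ^ 2 * T + 3 * n ^ 2 * T := by ring
      omega
    rcases Nat.eq_zero_or_pos (m * n ^ 2) with h0 | h0
    · have h4 : T ^ 2 ≤ 3 * n ^ 2 * T := by
        have : 3 * m ^ 2 * n ^ 2 * n ^ 2 = 3 * (m * n ^ 2) * (m * n ^ 2) := by ring
        rw [this, h0] at h2
        simpa using h2
      have h5 : 3 * n ^ 2 < T := by
        refine lt_of_le_of_lt ?_ hcon
        nlinarith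
      have h6 : 3 * n ^ 2 * T < T ^ 2 := by
        rw [pow_two T]
        exact Nat.mul_lt_mul_of_pos_right h5 (by omega)
      omega
    · have h4 : 2 * T ≤ 3 * m * n ^ 2 := by
        have h5 : (m * n ^ 2) * (2 * T) ≤ (m * n ^ 2) * (3 * m * n ^ 2) := by
          calc (m * n ^ 2) * (2 * T) = 2 * m * n ^ 2 * T := by ring
            _ ≤ _ := h3
            _ = (m * n ^ 2) * (3 * m * n ^ 2) := by ring
        exact Nat.le_of_mul_le_mul_left h5 h0
      have h5 : 2 * ((2 * m + 3) * n ^ 2) < 3 * m * n ^ 2 := by omega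
      nlinarith
  have e7 : n * B.card ≤ n ^ 3 := by
    calc n * B.card ≤ n * n ^ 2 := Nat.mul_le_mul_left n hB2
      _ = n ^ 3 := by ring
  calc B.card ^ 2 ≤ n * (T + B.card) := e5
    _ = n * T + n * B.card := by ring
    _ ≤ n * ((2 * m + 3) * n ^ 2) + n ^ 3 := Nat.add_le_add (Nat.mul_le_mul_left n e6) e7
    _ = (2 * m + 4) * n ^ 3 := by ring

/-- UP2. -/
theorem UP2 (hBAS : BAS_stmt) : UP2_stmt := by
  intro V _ H c hc h3 h2
  refine ⟨2 * (Fintype.card V + 2) + 4, fun n => ?_⟩
  have hkey : exs n H c Set.univ ≤ Nat.sqrt ((2 * (Fintype.card V + 2) + 4) * n ^ 3) := by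
    rw [(hBAS V H c).1]
    intro B hB
    rw [Nat.le_sqrt, ← pow_two]
    refine UP2_cnt B (Fintype.card V + 2) ?_
    intro hg
    exact hB (UP2_emb H c hc h3 h2 B _ le_rfl hg)
  rw [Nat.le_sqrt] at hkey
  rw [pow_two]
  exact hkey

end Pool.Agent.GL
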